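import Pool.Agent.helper43.UniFix

set_option autoImplicit false

/-!
# Rational structures on the regular module of a Frobenius kernel

For every prime `p`, every `r ≥ 1` and the field `F` with `q = p ^ r` elements we give a connected
(smooth, commutative, two-dimensional) unipotent group scheme `U` over `F` such that over every
algebraically closed field `k` containing `F` no rational `U`-module restricts on the `r`-th
Frobenius kernel `U_r` to the regular module `k[U_r] = ind_1^{U_r}(k)`. In particular none does
with the further property that it is projective over the finite group `U(F)`.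
-/

namespace Pool.Agent.Results.MP_da3f29_al.NoRationalStructure

open TensorProduct Pool.Agent.H43.Uni

universe u w

theorem result (p r : ℕ) [Fact p.Prime] (hr : 0 < r) (F : Type) [Field F] [Finite F]
    (hF : Nat.card F = p ^ r) :
    ∃ (A₀ : Type) (_ : CommRing A₀) (_ : HopfAlgebra F A₀),
      Nonempty (A₀ ≃ₐ[F] MvPolynomial (Fin 2) F) ∧ Coalgebra.IsCocomm F A₀ ∧
      ∀ (k : Type u) [Field k] [IsAlgClosed k] [CharP k p] [Algebra F k],
        IsUnipotent.{u, u, w} k (k ⊗[F] A₀) ∧
        ∀ (M : Type w) [AddCommGroup M] [Module k M]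
          (ρ : RationalModule k (k ⊗[F] A₀) M),
          ¬ ρ.IsRegularOn (frobeniusKernel k (k ⊗[F] A₀) p r) := by
  have hp : p.Prime := Fact.out
  have hchar : CharP F p := by
    obtain ⟨l, hl⟩ := CharP.exists F
    have : Fintype F := Fintype.ofFinite F
    obtain ⟨n, hlp, hcard⟩ := FiniteField.card F l
    rw [← Nat.card_eq_fintype_card, hF] at hcard
    have h1 : p ∣ l ^ (n : ℕ) := by
      rw [← hcard]
      exact dvd_pow_self p hr.ne'
    have h2 : p = l := (Nat.prime_dvd_prime_iff_eq hp hlp).1 (hp.dvd_of_dvd_pow h1)
    rw [h2]
    exact hl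
  refine ⟨UU p r F, inferInstance, inferInstance, ⟨UU.equiv p r F⟩, inferInstance, ?_⟩
  intro k _ _ _ _
  exact ⟨(bcCoords p r F k).isUnipotent,
    fun M _ _ ρ => no_structure (bcCoords p r F k) hr ρ⟩

end Pool.Agent.Results.MP_da3f29_al.NoRationalStructure
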